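import Pool.Agent.H52.OB.Col

/-!
# One step of the hierarchy commutes with the collapse (compare `OM/ColC.lean`)
-/

set_option autoImplicit false
set_option linter.unusedVariables false
set_option linter.unusedSectionVars false
set_option linter.unusedSimpArgs false
set_option linter.deprecated false

universe u v w

open scoped ZFSet

namespace Pool.Agent.H52.OB

open Pool.Agent.H17.Omega Pool.Agent.H82.OC Pool.Agent.H52.OM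

section

variable {B : ZFSet.{u} → Prop} {w : ZFSet.{u}} {Z : Set ZFSet.{u}} (hZ : HBc B w Z)

include hZ

theorem HBc.col_fld {W : ZFSet.{u}} (hW : W ∈ Z) (hWO : WO W) : col Z (fld W) = fld (col Z W) := by
  ext y
  rw [mem_col, mem_fld, mem_col]
  constructor
  · rintro ⟨x, hx, hxZ, rfl⟩
    exact ⟨ZFSet.pair x x, mem_fld.1 hx, hZ.pair_mem hxZ hxZ, (hZ.col_pair hxZ hxZ).symm⟩
  · rintro ⟨z, hz, hzZ, h⟩
    obtain ⟨a, ha, b, hb, rfl⟩ := hWO.rel z hz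
    obtain ⟨haZ, hbZ⟩ := hZ.of_pair_mem hzZ
    rw [hZ.col_pair haZ hbZ] at h
    exact ⟨a, ha, haZ, (ZFSet.pair_inj.1 h).1⟩

theorem HBc.col_sep {x : ZFSet.{u}} (hx : x ∈ Z) : col Z (ZFSet.sep B x) = ZFSet.sep B (col Z x) := by
  ext y
  rw [mem_col, ZFSet.mem_sep, mem_col]
  constructor
  · rintro ⟨z, hz, hzZ, rfl⟩
    rw [ZFSet.mem_sep] at hz
    exact ⟨⟨z, hz.1, hzZ, rfl⟩, (hZ.bcol _ hzZ).2 hz.2⟩
  · rintro ⟨⟨z, hz, hzZ, rfl⟩, h⟩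
    exact ⟨z, ZFSet.mem_sep.2 ⟨hz, (hZ.bcol _ hzZ).1 h⟩, hzZ, rfl⟩

theorem HBc.colc_asH {W p q z : ZFSet.{u}} (hW : W ∈ Z) (hWO : WO W) (hp : p ∈ Z) (hq : q ∈ Z) (hz : z ∈ Z) :
    (∀ i, asH B W p q z i ∈ Z) ∧
      (fun i => col Z (asH B W p q z i)) = asH B (col Z W) (col Z p) (col Z q) (col Z z) := by
  constructor
  · intro i
    match i with
    | 0 => exact hz
    | 1 => exact hZ.fl W hW
    | 2 => exact hW
    | 3 => exact hZ.sp _ (hZ.fl W hW)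
    | 4 => exact hp
    | 5 => exact hq
    | (n + 6) => exact hZ.empty_mem
  · funext i
    match i with
    | 0 => rfl
    | 1 => exact hZ.col_fld hW hWO
    | 2 => rfl
    | 3 =>
      show col Z (ZFSet.sep B (fld W)) = ZFSet.sep B (fld (col Z W))
      rw [hZ.col_sep (hZ.fl W hW), hZ.col_fld hW hWO]
    | 4 => rfl
    | 5 => rfl
    | (n + 6) => exact colc_empty

theorem HBc.col_Hh {W p q : ZFSet.{u}} (hW : W ∈ Z) (hWO : WO W) (hp : p ∈ Z) (hq : q ∈ Z) {θ : Fml}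
    (hθ : θ.Delta0) : col Z (Hh B W p q θ) = Hh B (col Z W) (col Z p) (col Z q) θ := by
  have key : ∀ z ∈ Z, (Sat (fun a b : ZFSet.{u} => a ∈ b) θ
      (asH B (col Z W) (col Z p) (col Z q) (col Z z)) ↔
      Sat (fun a b : ZFSet.{u} => a ∈ b) θ (asH B W p q z)) := by
    intro z hz
    obtain ⟨h1, h2⟩ := hZ.colc_asH hW hWO hp hq hz
    rw [← h2]
    exact hZ.col_sat hθ h1
  ext y
  rw [mem_col, Hh, Hh, ZFSet.mem_sep, ← hZ.col_fld hW hWO, mem_col]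
  constructor
  · rintro ⟨z, hz, hzZ, rfl⟩
    rw [ZFSet.mem_sep] at hz
    exact ⟨⟨z, hz.1, hzZ, rfl⟩, (key z hzZ).2 hz.2⟩
  · rintro ⟨⟨z, hz, hzZ, rfl⟩, h⟩
    exact ⟨z, ZFSet.mem_sep.2 ⟨hz, (key z hzZ).1 h⟩, hzZ, rfl⟩

theorem HBc.isCode_col {W z p q : ZFSet.{u}} (hW : W ∈ Z) (hWO : WO W) (hz : z ∈ Z) (hp : p ∈ Z) (hq : q ∈ Z)
    {θ : Fml} : IsCode B (col Z W) (col Z z) (col Z p) (col Z q) θ ↔ IsCode B W z p q θ := by
  constructor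
  · rintro ⟨h1, h2, h3, h4⟩
    rw [← hZ.col_fld hW hWO, hZ.col_mem_iff hp (hZ.fl W hW)] at h2
    rw [← hZ.col_fld hW hWO, hZ.col_mem_iff hq (hZ.fl W hW)] at h3
    rw [← hZ.col_Hh hW hWO hp hq h1] at h4
    exact ⟨h1, h2, h3, hZ.col_inj hz (hZ.hh θ W hW p hp q hq) h4⟩
  · rintro ⟨h1, h2, h3, h4⟩
    refine ⟨h1, ?_, ?_, ?_⟩
    · rw [← hZ.col_fld hW hWO, hZ.col_mem_iff hp (hZ.fl W hW)]
      exact h2
    · rw [← hZ.col_fld hW hWO, hZ.col_mem_iff hq (hZ.fl W hW)]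
      exact h3
    · rw [← hZ.col_Hh hW hWO hp hq h1, ← h4]

theorem HBc.fld_pre {W y : ZFSet.{u}} (hW : W ∈ Z) (hWO : WO W) (hy : y ∈ fld (col Z W)) :
    ∃ p ∈ Z, p ∈ fld W ∧ y = col Z p := by
  rw [← hZ.col_fld hW hWO] at hy
  obtain ⟨p, h1, h2, h3⟩ := mem_col.1 hy
  exact ⟨p, h2, h1, h3⟩

theorem HBc.pair_col_iff {W a b : ZFSet.{u}} (hW : W ∈ Z) (ha : a ∈ Z) (hb : b ∈ Z) :
    ZFSet.pair (col Z a) (col Z b) ∈ col Z W ↔ ZFSet.pair a b ∈ W := by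
  rw [← hZ.col_pair ha hb]
  exact hZ.col_mem_iff (hZ.pair_mem ha hb) hW

theorem HBc.mem_fld_col {W a : ZFSet.{u}} (hW : W ∈ Z) (ha : a ∈ Z) :
    col Z a ∈ fld (col Z W) ↔ a ∈ fld W := by
  rw [mem_fld, mem_fld]
  exact hZ.pair_col_iff hW ha ha

theorem HBc.clt_col {W p q p' q' : ZFSet.{u}} {θ θ' : Fml} (hW : W ∈ Z) (hp : p ∈ Z) (hq : q ∈ Z)
    (hp' : p' ∈ Z) (hq' : q' ∈ Z) :
    CLt (col Z W) (col Z p) (col Z q) θ (col Z p') (col Z q') θ' ↔ CLt W p q θ p' q' θ' := by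
  have h1 : ∀ {a b : ZFSet.{u}}, a ∈ Z → b ∈ Z → (col Z a = col Z b ↔ a = b) := fun ha hb =>
    ⟨fun h => hZ.col_inj ha hb h, fun h => by rw [h]⟩
  unfold CLt
  rw [hZ.pair_col_iff hW hp hp', hZ.pair_col_iff hW hq hq', Ne, Ne, h1 hp hp', h1 hq hq']

theorem HBc.least_col {W z p q : ZFSet.{u}} (hW : W ∈ Z) (hWO : WO W) (hWO' : WO (col Z W)) (hz : z ∈ Z)
    (hp : p ∈ Z) (hq : q ∈ Z) {θ : Fml} :
    Least B (col Z W) (col Z z) (col Z p) (col Z q) θ ↔ Least B W z p q θ := by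
  constructor
  · intro h
    have hcode : IsCode B W z p q θ := (hZ.isCode_col hW hWO hz hp hq).1 h.1
    obtain ⟨p0, hp0, q0, hq0, θ0, h0⟩ := hZ.cd W hW z hz (exists_least hWO ⟨p, q, θ, hcode⟩)
    rcases clt_trichotomy (θ := θ) (θ' := θ0) hWO hcode.hp hcode.hq h0.1.hp h0.1.hq with
      h1 | ⟨rfl, rfl, rfl⟩ | h1
    · exact (h0.2 _ _ _ hcode h1).elim
    · exact h0
    · exact (h.2 _ _ _ ((hZ.isCode_col hW hWO hz hp0 hq0).2 h0.1)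
        ((hZ.clt_col hW hp0 hq0 hp hq).2 h1)).elim
  · intro h
    refine ⟨(hZ.isCode_col hW hWO hz hp hq).2 h.1, fun p' q' θ' hc hlt => ?_⟩
    obtain ⟨p'', hp'', -, rfl⟩ := hZ.fld_pre hW hWO hc.hp
    obtain ⟨q'', hq'', -, rfl⟩ := hZ.fld_pre hW hWO hc.hq
    exact h.2 _ _ _ ((hZ.isCode_col hW hWO hz hp'' hq'').1 hc)
      ((hZ.clt_col hW hp'' hq'' hp hq).1 hlt)

theorem HBc.new_col {W z : ZFSet.{u}} (hW : W ∈ Z) (hWO : WO W) (hWO' : WO (col Z W)) (hz : z ∈ Z) :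
    New B (col Z W) (col Z z) ↔ New B W z := by
  constructor
  · rintro ⟨h1, p', q', θ, hc⟩
    obtain ⟨p, hp, -, rfl⟩ := hZ.fld_pre hW hWO hc.hp
    obtain ⟨q, hq, -, rfl⟩ := hZ.fld_pre hW hWO hc.hq
    exact ⟨fun h => h1 ((hZ.mem_fld_col hW hz).2 h), p, q, θ, (hZ.isCode_col hW hWO hz hp hq).1 hc⟩
  · rintro ⟨h1, hex⟩
    obtain ⟨p, hp, q, hq, θ, h0⟩ := hZ.cd W hW z hz (exists_least hWO hex)
    exact ⟨fun h => h1 ((hZ.mem_fld_col hW hz).1 h), _, _, θ, (hZ.isCode_col hW hWO hz hp hq).2 h0.1⟩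

theorem HBc.stepR_col {W a b : ZFSet.{u}} (hW : W ∈ Z) (hWO : WO W) (hWO' : WO (col Z W)) (ha : a ∈ Z)
    (hb : b ∈ Z) : StepR B (col Z W) (col Z a) (col Z b) ↔ StepR B W a b := by
  unfold StepR
  rw [hZ.pair_col_iff hW ha hb, hZ.mem_fld_col hW ha, hZ.new_col hW hWO hWO' ha,
    hZ.new_col hW hWO hWO' hb]
  refine or_congr Iff.rfl (or_congr Iff.rfl (and_congr_right fun h1 => and_congr_right fun h2 => ?_))
  constructor
  · rintro (h | ⟨p, q, θ, p', q', θ', hl, hl', hlt⟩)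
    · exact Or.inl (hZ.col_inj ha hb h)
    · obtain ⟨p, hp, -, rfl⟩ := hZ.fld_pre hW hWO hl.1.hp
      obtain ⟨q, hq, -, rfl⟩ := hZ.fld_pre hW hWO hl.1.hq
      obtain ⟨p', hp', -, rfl⟩ := hZ.fld_pre hW hWO hl'.1.hp
      obtain ⟨q', hq', -, rfl⟩ := hZ.fld_pre hW hWO hl'.1.hq
      exact Or.inr ⟨p, q, θ, p', q', θ', (hZ.least_col hW hWO hWO' ha hp hq).1 hl,
        (hZ.least_col hW hWO hWO' hb hp' hq').1 hl', (hZ.clt_col hW hp hq hp' hq').1 hlt⟩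
  · rintro (rfl | ⟨p1, q1, θ, p1', q1', θ', hl1, hl1', hlt1⟩)
    · exact Or.inl rfl
    · obtain ⟨p, hp, q, hq, θ2, hl⟩ := hZ.cd W hW a ha ⟨_, _, _, hl1⟩
      obtain ⟨p', hp', q', hq', θ2', hl'⟩ := hZ.cd W hW b hb ⟨_, _, _, hl1'⟩
      obtain ⟨rfl, rfl, rfl⟩ := least_unique hWO hl1 hl
      obtain ⟨rfl, rfl, rfl⟩ := least_unique hWO hl1' hl'
      exact Or.inr ⟨_, _, _, _, _, _, (hZ.least_col hW hWO hWO' ha hp hq).2 hl,
        (hZ.least_col hW hWO hWO' hb hp' hq').2 hl', (hZ.clt_col hW hp hq hp' hq').2 hlt1⟩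

theorem HBc.step_pre {W y : ZFSet.{u}} (hW : W ∈ Z) (hWO : WO W)
    (h : y ∈ fld (col Z W) ∨ New B (col Z W) y) : ∃ a ∈ Z, y = col Z a := by
  rcases h with h | ⟨-, p', q', θ, hc⟩
  · obtain ⟨a, ha, -, rfl⟩ := hZ.fld_pre hW hWO h
    exact ⟨a, ha, rfl⟩
  · obtain ⟨p, hp, -, rfl⟩ := hZ.fld_pre hW hWO hc.hp
    obtain ⟨q, hq, -, rfl⟩ := hZ.fld_pre hW hWO hc.hq
    refine ⟨Hh B W p q θ, hZ.hh θ W hW p hp q hq, ?_⟩
    rw [hZ.col_Hh hW hWO hp hq hc.d0]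
    exact hc.eq

theorem HBc.col_step {W : ZFSet.{u}} (hW : W ∈ Z) (hWO : WO W) (hWO' : WO (col Z W)) :
    col Z (step B W) = step B (col Z W) := by
  ext y
  constructor
  · intro hy
    obtain ⟨z, hz, hzZ, rfl⟩ := mem_col.1 hy
    obtain ⟨a, -, b, -, rfl⟩ := (wo_step (B := B) hWO).rel z hz
    obtain ⟨ha, hb⟩ := hZ.of_pair_mem hzZ
    rw [hZ.col_pair ha hb, mem_step hWO', hZ.stepR_col hW hWO hWO' ha hb]
    exact (mem_step hWO).1 hz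
  · intro hy
    obtain ⟨a', -, b', -, rfl⟩ := (wo_step (B := B) hWO').rel y hy
    have h1 := (mem_step hWO').1 hy
    have h2 := stepb_mem hWO' h1
    obtain ⟨a, ha, rfl⟩ := hZ.step_pre hW hWO h2.1
    obtain ⟨b, hb, rfl⟩ := hZ.step_pre hW hWO h2.2
    rw [← hZ.col_pair ha hb]
    exact mem_col.2 ⟨_, (mem_step hWO).2 ((hZ.stepR_col hW hWO hWO' ha hb).1 h1), hZ.pair_mem ha hb, rfl⟩

end

end Pool.Agent.H52.OB
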