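import Pool.Agent.H52.OB.ColC

/-!
# The hierarchy commutes with the collapse (compare `OM/ColD.lean`)
-/

set_option autoImplicit false
set_option linter.unusedVariables false
set_option linter.unusedSectionVars false
set_option linter.unusedSimpArgs false
set_option linter.deprecated false

universe u v w

open scoped ZFSet

namespace Pool.Agent.H52.OB

open Pool.Agent.H17.Omega Pool.Agent.H82.OC Pool.Agent.H52.OM

section

variable {B : ZFSet.{u} → Prop} {w : ZFSet.{u}} {Z : Set ZFSet.{u}} (hZ : HBc B w Z)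

include hZ

theorem HBc.col_Wl (hw : WO w) (hwZ : w ∈ Z) (hcw : col Z w = w) (γ : Ordinal.{u}) (hγ : γ.toZFSet ∈ Z) :
    col Z (Wl B w γ) = Wl B w (co Z γ) := by
  induction γ using WellFoundedLT.induction with
  | ind γ ih =>
    have key : ∀ δ < γ, δ.toZFSet ∈ Z →
        col Z (step B (Wl B w δ)) = step B (Wl B w (co Z δ)) := by
      intro δ hδ hδZ
      rw [← ih δ hδ hδZ]
      refine hZ.col_step (hZ.lv δ hδZ) (wo_Wl hw δ) ?_
      rw [ih δ hδ hδZ]
      exact wo_Wl hw _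
    ext y
    constructor
    · intro hy
      obtain ⟨z, hz, hzZ, rfl⟩ := mem_col.1 hy
      rcases (mem_Wl _).1 hz with h | ⟨δ, hδ, h⟩
      · refine (mem_Wl _).2 (Or.inl ?_)
        rw [← hcw]
        exact mem_col.2 ⟨z, h, hzZ, rfl⟩
      · obtain ⟨δ, hδ, hδZ, h⟩ := hZ.lw γ hγ z hzZ ⟨δ, hδ, h⟩
        refine (mem_Wl _).2 (Or.inr ⟨co Z δ, hZ.co_lt hγ hδZ hδ, ?_⟩)
        rw [← key δ hδ hδZ]
        exact mem_col.2 ⟨z, h, hzZ, rfl⟩
    · intro hy
      rcases (mem_Wl _).1 hy with h | ⟨ε, hε, h⟩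
      · rw [← hcw] at h
        obtain ⟨z, hz, hzZ, rfl⟩ := mem_col.1 h
        exact mem_col.2 ⟨z, (mem_Wl _).2 (Or.inl hz), hzZ, rfl⟩
      · obtain ⟨δ, hδ, hδZ, rfl⟩ := hZ.exists_of_lt_co hγ hε
        rw [← key δ hδ hδZ] at h
        obtain ⟨z, hz, hzZ, rfl⟩ := mem_col.1 h
        exact mem_col.2 ⟨z, (mem_Wl _).2 (Or.inr ⟨δ, hδ, hz⟩), hzZ, rfl⟩

theorem HBc.satIn_col {v : ZFSet.{u}} (hv : v ∈ Z) (φ : Fml) {f : ℕ → ZFSet.{u}} (hf : ∀ i, f i ∈ Z) :
    SatIn (El (col Z v)) φ (fun i => col Z (f i)) ↔ SatIn (El v) φ f := by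
  have h := hZ.col_d0 (d0_satIn φ φ.bd le_rfl)
    (fun i : Fin (φ.bd + 1) => if i = Fin.last φ.bd then v else f i) (by
      intro i
      split_ifs
      · exact hv
      · exact hf _)
  have e1 : ∀ i : ℕ, ∀ hi : i < φ.bd, (⟨i, Nat.lt_succ_of_lt hi⟩ : Fin (φ.bd + 1)) ≠ Fin.last φ.bd := by
    intro i hi he
    have := congrArg Fin.val he
    simp only [Fin.val_last] at this
    omega
  simp only [if_true] at h
  refine (satIn_congr ?_).trans (h.trans (satIn_congr ?_))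
  · intro i hi
    rw [dif_pos hi, if_neg (e1 i hi)]
  · intro i hi
    rw [dif_pos hi, if_neg (e1 i hi)]

theorem HBc.models_col {v : ZFSet.{u}} (hv : v ∈ Z) {φ : Fml} (h : Models (El v) φ) :
    Models (El (col Z v)) φ := by
  rw [models_iff] at h ⊢
  intro g hg
  have h1 : ∀ i, ∃ y ∈ v, y ∈ Z ∧ g i = col Z y := fun i => mem_col.1 (hg i)
  choose f hf1 hf2 hf3 using h1
  have hgf : g = fun i => col Z (f i) := funext hf3
  rw [hgf, hZ.satIn_col hv φ hf2]
  exact h f hf1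

end

end Pool.Agent.H52.OB
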