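import Pool.Agent.H52.OB.ColD
import Pool.Agent.H17.GP.Stmt
import Pool.Agent.H17.GP.Rl

/-!
# Countable transitive models of ZFC of the form `L_β[e]`

For every real `e` there is a countable limit ordinal `β` such that the level `β` of the constructible hierarchy
relative to `e` is a model of ZFC that contains `e`.
-/

set_option autoImplicit false
set_option linter.unusedVariables false
set_option linter.unusedSectionVars false
set_option linter.unusedSimpArgs false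
set_option linter.deprecated false

universe u v w

open scoped ZFSet

namespace Pool.Agent.H52.OB

open Pool.Agent.H17.Omega Pool.Agent.H82.OC Pool.Agent.H52.OM Pool.Agent.H17.GP

/-- the wellorder of `{∅}` -/
noncomputable def w0 : ZFSet.{u} := {ZFSet.pair ∅ ∅}

theorem mem_w0 {z : ZFSet.{u}} : z ∈ w0 ↔ z = ZFSet.pair ∅ ∅ := ZFSet.mem_singleton

theorem mem_fld_w0 {x : ZFSet.{u}} : x ∈ fld w0 ↔ x = ∅ := by
  rw [mem_fld, mem_w0, ZFSet.pair_inj]
  exact ⟨fun h => h.1, fun h => ⟨h, h⟩⟩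

theorem wo_w0 : WO w0.{u} where
  rel := by
    intro z hz
    exact ⟨∅, mem_fld_w0.2 rfl, ∅, mem_fld_w0.2 rfl, mem_w0.1 hz⟩
  anti := by
    intro a b h _
    have h1 := ZFSet.pair_inj.1 (mem_w0.1 h)
    rw [h1.1, h1.2]
  trans := by
    intro a b c h1 h2
    have h3 := ZFSet.pair_inj.1 (mem_w0.1 h1)
    have h4 := ZFSet.pair_inj.1 (mem_w0.1 h2)
    rw [h3.1, h4.2]
    exact mem_w0.2 rfl
  min := by
    intro c hc h0
    have h1 : ∃ m, m ∈ c := by
      by_contra h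
      push Not at h
      exact h0 ((ZFSet.eq_empty c).2 h)
    obtain ⟨m, hm⟩ := h1
    refine ⟨m, hm, fun z hz => ?_⟩
    rw [mem_fld_w0.1 (hc hm), mem_fld_w0.1 (hc hz)]
    exact mem_w0.2 rfl

theorem trans_fld_w0 : (fld w0.{u}).IsTransitive := by
  intro x hx y hy
  rw [mem_fld_w0.1 hx] at hy
  exact (ZFSet.notMem_empty _ hy).elim

theorem ne_fld_w0 : ∃ x, x ∈ fld w0.{u} := ⟨∅, mem_fld_w0.2 rfl⟩

theorem w0_rank_lt {κ : Cardinal.{u}} (hκ : κ.IsInaccessible) : (w0.{u}).rank < κ.ord := by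
  have hlim := kap_lim hκ
  have h0 : (∅ : ZFSet.{u}).rank < κ.ord := by rw [ZFSet.rank_empty]; exact hlim.bot_lt
  have hs : ∀ x : ZFSet.{u}, x.rank < κ.ord → ({x} : ZFSet.{u}).rank < κ.ord := by
    intro x hx
    rw [ZFSet.rank_singleton]
    exact hlim.succ_lt hx
  have hp : (ZFSet.pair ∅ ∅ : ZFSet.{u}).rank < κ.ord := by
    have h1 : (ZFSet.pair ∅ ∅ : ZFSet.{u}) = {{∅}, {∅, ∅}} := rfl
    rw [h1, ZFSet.rank_pair, ZFSet.rank_pair, ZFSet.rank_singleton]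
    exact max_lt (hlim.succ_lt (hlim.succ_lt h0)) (hlim.succ_lt (max_lt (hlim.succ_lt h0) (hlim.succ_lt h0)))
  exact hs _ hp

section

variable (e : ℕ → ℕ)

/-- The predicate `z ∈ e` is preserved by the collapse. -/
theorem hbc_rz {e : ℕ → ℕ} {w : ZFSet.{u}} {Z : Set ZFSet.{u}} (hZ : HB (fun z => z ∈ rz.{u} e) w Z) :
    HBc (fun z => z ∈ rz.{u} e) w Z where
  toHB := hZ
  bcol := by
    intro z hz
    constructor
    · intro h
      obtain ⟨n, h1⟩ := mem_rz.1 h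
      have h2 : col Z (ZFSet.pair (natZ n) (natZ (e n))) = ZFSet.pair (natZ n) (natZ (e n)) := by
        rw [hZ.col_pair (hZ.natZ_mem n) (hZ.natZ_mem _), hZ.col_natZ, hZ.col_natZ]
      have h3 : z = ZFSet.pair (natZ n) (natZ (e n)) :=
        hZ.col_inj hz (hZ.pair_mem (hZ.natZ_mem n) (hZ.natZ_mem _)) (by rw [h2]; exact h1)
      rw [h3]
      exact mem_rz.2 ⟨n, rfl⟩
    · intro h
      obtain ⟨n, rfl⟩ := mem_rz.1 h
      rw [hZ.col_pair (hZ.natZ_mem n) (hZ.natZ_mem _), hZ.col_natZ, hZ.col_natZ]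
      exact h

theorem exists_countable_level {κ : Cardinal.{u}} (hκ : κ.IsInaccessible) :
    ∃ β : Ordinal.{u}, β.card ≤ Cardinal.aleph0 ∧ Zl (fun z => z ∈ rz.{u} e) w0 β := by
  obtain ⟨Z, hPZ, hZ'⟩ := exists_HB (fun z => z ∈ rz.{u} e) w0.{u} (P0 := {w0.{u}, κ.ord.toZFSet})
    ((Set.countable_singleton _).insert _)
  have hZ := hbc_rz hZ'
  have hwZ : w0 ∈ Z := hPZ (Or.inl rfl)
  have hκZ : κ.ord.toZFSet ∈ Z := hPZ (Or.inr rfl)
  have hcp : col Z (ZFSet.pair (∅ : ZFSet.{u}) ∅) = ZFSet.pair ∅ ∅ := by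
    rw [hZ'.col_pair hZ'.empty_mem hZ'.empty_mem, colc_empty]
  have hcw : col Z w0 = w0 := by
    ext y
    rw [mem_col, mem_w0]
    constructor
    · rintro ⟨z, hz, -, rfl⟩
      rw [mem_w0.1 hz]; exact hcp
    · rintro rfl
      exact ⟨ZFSet.pair ∅ ∅, mem_w0.2 rfl, hZ'.pair_mem hZ'.empty_mem hZ'.empty_mem, hcp.symm⟩
  have hzl := zl_kappa (B := fun z => z ∈ rz.{u} e) hκ wo_w0 trans_fld_w0 ne_fld_w0 (w0_rank_lt hκ)
  refine ⟨co Z κ.ord, hZ'.co_countable hκZ, hZ'.co_limit hκZ hzl.1, fun ψ hψ => ?_⟩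
  have hWZ := hZ'.lv κ.ord hκZ
  have h1 := hZ.models_col (hZ'.fl _ hWZ) (hzl.2 ψ hψ)
  rw [hZ.col_fld hWZ (wo_Wl wo_w0 _), hZ.col_Wl wo_w0 hwZ hcw κ.ord hκZ] at h1
  exact h1

/-- the level `β` of the hierarchy relative to `e` -/
def LL (e : ℕ → ℕ) (β : Ordinal.{u}) : Set ZFSet.{u} := KL (fun z => z ∈ rz.{u} e) w0 β

/-- A countable limit level that is a model. -/
theorem exists_ctm {κ : Cardinal.{u}} (hκ : κ.IsInaccessible) : ∃ β : Ordinal.{u}, Order.IsSuccLimit β ∧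
    CTM (KL (fun z => z ∈ rz.{u} e) w0 β) := by
  obtain ⟨β, h1, h2⟩ := exists_countable_level e hκ
  refine ⟨β, h2.1, ?_, ?_, ?_, h2.2⟩
  · exact ⟨∅, fld_mono (hier_w_sub _) (mem_fld_w0.2 rfl)⟩
  · refine countable_KL wo_w0 ?_ h1
    refine (Set.countable_singleton (∅ : ZFSet.{u})).mono fun x hx => ?_
    exact mem_fld_w0.1 hx
  · exact fun x hx y hy => trans_Wl wo_w0 trans_fld_w0 _ x hx hy

end

section

variable {e : ℕ → ℕ} {β : Ordinal.{u}} (hβ : Order.IsSuccLimit β) (hM : CTM (KL (fun z => z ∈ rz.{u} e) w0 β))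

include hβ hM

/-- The real is in the model. -/
theorem rz_mem : rz.{u} e ∈ KL (fun z => z ∈ rz.{u} e) w0 β := by
  have h1 : ZFSet.prod omZ omZ ∈ KL (fun z => z ∈ rz.{u} e) w0 β := hM.prod_mem hM.omZ_mem hM.omZ_mem
  have h2 := KL_amenable (B := fun z => z ∈ rz.{u} e) wo_w0 trans_fld_w0 ne_fld_w0 hβ h1
  have h3 : ZFSet.sep (fun z => z ∈ rz.{u} e) (ZFSet.prod omZ omZ) = rz e := by
    ext z
    rw [ZFSet.mem_sep]
    refine ⟨fun h => h.2, fun h => ⟨?_, h⟩⟩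
    obtain ⟨n, rfl⟩ := mem_rz.1 h
    rw [ZFSet.pair_mem_prod]
    exact ⟨natZ_mem_omZ _, natZ_mem_omZ _⟩
  rw [h3] at h2
  exact h2

/-- The levels are elements of the model. -/
theorem level_mem_KL {γ : Ordinal.{u}} (hγ : γ < β) : Wl (fun z => z ∈ rz.{u} e) w0 γ ∈
    KL (fun z => z ∈ rz.{u} e) w0 β :=
  Wl_mem_KL wo_w0 trans_fld_w0 ne_fld_w0 hβ hγ

end

/-- The rank of the elements of a level. -/
theorem rank_le_of_mem {B : ZFSet.{u} → Prop} {γ : Ordinal.{u}} : ∀ {x : ZFSet.{u}}, x ∈ fld (Wl B w0 γ) →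
    x.rank ≤ γ := by
  induction γ using WellFoundedLT.induction with
  | ind γ ih =>
    intro x hx
    rcases (mem_fld_Wl wo_w0).1 hx with h | ⟨δ, hδ, h⟩
    · rw [mem_fld_w0.1 h, ZFSet.rank_empty]; exact zero_le
    · obtain ⟨-, p, q, θ, hc⟩ := h
      rw [ZFSet.rank_le_iff]
      intro y hy
      rw [hc.eq, Hh, ZFSet.mem_sep] at hy
      exact (ih δ hδ hy.1).trans_lt hδ

theorem rank_lt_of_mem_KL {B : ZFSet.{u} → Prop} {β : Ordinal.{u}} (hβ : Order.IsSuccLimit β) {x : ZFSet.{u}}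
    (hx : x ∈ KL B w0 β) : x.rank < β := by
  obtain ⟨δ, hδ, h⟩ := (fld_Wl_limit wo_w0 hβ).1 hx
  exact (rank_le_of_mem h).trans_lt hδ

/-- being an ordinal is `Δ₀` -/
theorem d0_isOrd {n : ℕ} {s : (Fin n → ZFSet.{u}) → ZFSet.{u}} (hs : D0T s) : D0 (fun v => (s v).IsOrdinal) := by
  refine ((D0.isTrans hs).and (D0.ballZ (p := fun v z => z.IsTransitive) hs (D0.isTrans D0T.last))).congr
    fun v => ?_
  constructor
  · rintro ⟨h1, h2⟩
    refine ⟨h1, ?_⟩
    intro x y z hxy hyz hz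
    exact h2 z hz y hyz hxy
  · intro h
    exact ⟨h.isTransitive, fun z hz => (h.mem hz).isTransitive⟩

theorem toZFSet_mem_fld {B : ZFSet.{u} → Prop} (γ : Ordinal.{u}) : γ.toZFSet ∈ fld (Wl B w0 (Order.succ γ)) := by
  induction γ using WellFoundedLT.induction with
  | ind γ ih =>
    by_cases h0 : γ.toZFSet ∈ fld (Wl B w0 γ)
    · exact fld_mono (Wl_mono (Order.le_succ _)) h0
    · have hp : (∅ : ZFSet.{u}) ∈ fld (Wl B w0 γ) := fld_mono (hier_w_sub _) (mem_fld_w0.2 rfl)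
      have h1 := limkb_D0 (B := B) wo_w0 (P := fun v => (v 0).IsOrdinal) (d0_isOrd (D0T.var 0))
        (Order.lt_succ γ) hp hp
      have h2 : ZFSet.sep (fun z => (fun v : Fin 6 → ZFSet.{u} => (v 0).IsOrdinal)
          (fun i => asH B (Wl B w0 γ) ∅ ∅ z i)) (fld (Wl B w0 γ)) = γ.toZFSet := by
        ext z
        rw [ZFSet.mem_sep]
        show z ∈ fld (Wl B w0 γ) ∧ z.IsOrdinal ↔ _
        constructor
        · rintro ⟨h3, h4⟩
          have h5 := rank_le_of_mem h3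
          rcases h5.lt_or_eq with h6 | h6
          · rw [← h4.toZFSet_rank_eq]
            exact Ordinal.toZFSet_mem_toZFSet_iff.2 h6
          · exfalso
            apply h0
            have h7 : γ.toZFSet = z := by rw [← h6]; exact h4.toZFSet_rank_eq
            rw [h7]
            exact h3
        · intro hz
          obtain ⟨δ, hδ, rfl⟩ := Ordinal.mem_toZFSet_iff.1 hz
          exact ⟨fld_mono (Wl_mono (Order.succ_le_of_lt hδ)) (ih δ hδ), ZFSet.isOrdinal_toZFSet δ⟩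
      rw [h2] at h1
      exact h1

/-- The ordinals of the level `β`. -/
theorem toZFSet_mem_KL_iff {B : ZFSet.{u} → Prop} {β : Ordinal.{u}} (hβ : Order.IsSuccLimit β) {γ : Ordinal.{u}} :
    γ.toZFSet ∈ KL B w0 β ↔ γ < β := by
  constructor
  · intro h
    have := rank_lt_of_mem_KL hβ h
    rwa [Ordinal.rank_toZFSet] at this
  · intro h
    exact fld_mono (Wl_mono (Order.succ_le_of_lt h)) (toZFSet_mem_fld γ)

end Pool.Agent.H52.OB
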