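import Pool.Agent.H52.OM.CtmK

/-!
# Countable hulls for a general predicate `B` (compare `OM/HullA.lean`)
-/

set_option autoImplicit false
set_option linter.unusedVariables false
set_option linter.unusedSectionVars false
set_option linter.unusedSimpArgs false
set_option linter.deprecated false

universe u v w

open scoped ZFSet

namespace Pool.Agent.H52.OB

open Pool.Agent.H17.Omega Pool.Agent.H82.OC Pool.Agent.H52.OM

/-- A countable hull. -/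
structure HB (B : ZFSet.{u} → Prop) (w : ZFSet.{u}) (Z : Set ZFSet.{u}) : Prop where
  cnt : Z.Countable
  ne : Z.Nonempty
  wit : ∀ (φ : Fml) (k : ℕ) (f : ℕ → ZFSet.{u}), (∀ i, f i ∈ Z) →
    (∃ z, Sat (fun a b : ZFSet.{u} => a ∈ b) φ (upd f k z)) →
    ∃ z ∈ Z, Sat (fun a b : ZFSet.{u} => a ∈ b) φ (upd f k z)
  fl : ∀ W ∈ Z, fld W ∈ Z
  sp : ∀ x ∈ Z, ZFSet.sep B x ∈ Z
  hh : ∀ θ, ∀ W ∈ Z, ∀ p ∈ Z, ∀ q ∈ Z, Hh B W p q θ ∈ Z
  st : ∀ W ∈ Z, step B W ∈ Z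
  cd : ∀ W ∈ Z, ∀ z ∈ Z, (∃ p q θ, Least B W z p q θ) → ∃ p ∈ Z, ∃ q ∈ Z, ∃ θ, Least B W z p q θ
  lv : ∀ γ : Ordinal.{u}, γ.toZFSet ∈ Z → Wl B w γ ∈ Z
  lw : ∀ γ : Ordinal.{u}, γ.toZFSet ∈ Z → ∀ y ∈ Z, (∃ δ < γ, y ∈ step B (Wl B w δ)) →
    ∃ δ < γ, δ.toZFSet ∈ Z ∧ y ∈ step B (Wl B w δ)

/-- The relations that the hull is closed under. -/
def hbRel (B : ZFSet.{u} → Prop) (w : ZFSet.{u}) : ℕ × ℕ × Fml → List ZFSet.{u} → ZFSet.{u} → Prop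
  | (0, k, φ), l, z => Sat (fun a b : ZFSet.{u} => a ∈ b) φ (upd (fun i => l.getD i ∅) k z)
  | (1, _, _), l, z => z = fld (l.getD 0 ∅)
  | (2, _, _), l, z => z = ZFSet.sep B (l.getD 0 ∅)
  | (3, _, θ), l, z => z = Hh B (l.getD 0 ∅) (l.getD 1 ∅) (l.getD 2 ∅) θ
  | (4, _, _), l, z => z = step B (l.getD 0 ∅)
  | (5, _, _), l, p => ∃ q θ, Least B (l.getD 0 ∅) (l.getD 1 ∅) p q θ
  | (6, _, _), l, q => ∃ θ, Least B (l.getD 0 ∅) (l.getD 1 ∅) (l.getD 2 ∅) q θ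
  | (7, _, _), l, z => ∃ γ : Ordinal.{u}, l.getD 0 ∅ = γ.toZFSet ∧ z = Wl B w γ
  | (8, _, _), l, d => ∃ γ δ : Ordinal.{u}, l.getD 0 ∅ = γ.toZFSet ∧ d = δ.toZFSet ∧ δ < γ ∧
      l.getD 1 ∅ ∈ step B (Wl B w δ)
  | _, _, _ => False

theorem exists_HB (B : ZFSet.{u} → Prop) (w : ZFSet.{u}) {P0 : Set ZFSet.{u}} (h0 : P0.Countable) :
    ∃ Z : Set ZFSet.{u}, P0 ⊆ Z ∧ HB B w Z := by
  have hcf : Countable Fml := Fml.code_injective.countable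
  obtain ⟨Z, hZc, hP0', hZ⟩ := exists_closed (hbRel B w) (h0.insert (∅ : ZFSet.{u}))
  have hP0 : P0 ⊆ Z := fun a ha => hP0' (Set.mem_insert_of_mem _ ha)
  have hne : Z.Nonempty := ⟨∅, hP0' (Set.mem_insert _ _)⟩
  have h1 : ∀ i a, a ∈ Z → (∃ z, hbRel B w i [a] z) → ∃ z ∈ Z, hbRel B w i [a] z := by
    intro i a ha
    refine hZ i [a] ?_
    simpa using ha
  have h2 : ∀ i a b, a ∈ Z → b ∈ Z → (∃ z, hbRel B w i [a, b] z) → ∃ z ∈ Z, hbRel B w i [a, b] z := by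
    intro i a b ha hb
    refine hZ i [a, b] ?_
    simpa using ⟨ha, hb⟩
  have h3 : ∀ i a b c, a ∈ Z → b ∈ Z → c ∈ Z → (∃ z, hbRel B w i [a, b, c] z) →
      ∃ z ∈ Z, hbRel B w i [a, b, c] z := by
    intro i a b c ha hb hc
    refine hZ i [a, b, c] ?_
    simpa using ⟨ha, hb, hc⟩
  refine ⟨Z, hP0, ⟨hZc, hne, ?_, ?_, ?_, ?_, ?_, ?_, ?_, ?_⟩⟩
  · intro φ k f hf hz
    have key : ∀ z, Sat (fun a b : ZFSet.{u} => a ∈ b) φ
        (upd (fun i => ((List.range φ.bd).map f).getD i ∅) k z) ↔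
        Sat (fun a b : ZFSet.{u} => a ∈ b) φ (upd f k z) := by
      intro z
      refine Sat.congr fun i hi => ?_
      unfold upd
      split_ifs
      · rfl
      · simp [List.getD_eq_getElem?_getD, hi]
    obtain ⟨z, hzZ, hz'⟩ := hZ (0, k, φ) ((List.range φ.bd).map f) (by
      intro a ha
      obtain ⟨i, -, rfl⟩ := List.mem_map.1 ha
      exact hf i) (by
      obtain ⟨z, hz⟩ := hz
      exact ⟨z, (key z).2 hz⟩)
    exact ⟨z, hzZ, (key z).1 hz'⟩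
  · intro W hW
    obtain ⟨z, hz, e⟩ := h1 (1, 0, .bot) W hW ⟨_, rfl⟩
    rw [show z = fld W from e] at hz
    exact hz
  · intro x hx
    obtain ⟨z, hz, e⟩ := h1 (2, 0, .bot) x hx ⟨_, rfl⟩
    rw [show z = ZFSet.sep B x from e] at hz
    exact hz
  · intro θ W hW p hp q hq
    obtain ⟨z, hz, e⟩ := h3 (3, 0, θ) W p q hW hp hq ⟨_, rfl⟩
    rw [show z = Hh B W p q θ from e] at hz
    exact hz
  · intro W hW
    obtain ⟨z, hz, e⟩ := h1 (4, 0, .bot) W hW ⟨_, rfl⟩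
    rw [show z = step B W from e] at hz
    exact hz
  · rintro W hW z hz ⟨p, q, θ, h⟩
    obtain ⟨p', hp', e⟩ := h2 (5, 0, .bot) W z hW hz ⟨p, q, θ, h⟩
    obtain ⟨q', hq', e'⟩ := h3 (6, 0, .bot) W z p' hW hz hp' e
    exact ⟨p', hp', q', hq', e'⟩
  · intro γ hγ
    obtain ⟨z, hz, γ', e1, e2⟩ := h1 (7, 0, .bot) γ.toZFSet hγ ⟨_, γ, rfl, rfl⟩
    have : γ = γ' := Ordinal.toZFSet_injective e1
    rw [e2, ← this] at hz
    exact hz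
  · rintro γ hγ y hy ⟨δ, hδ, hyδ⟩
    obtain ⟨z, hz, γ', δ', e1, e2, e3, e4⟩ := h2 (8, 0, .bot) γ.toZFSet y hγ hy ⟨_, γ, δ, rfl, rfl, hδ, hyδ⟩
    have : γ = γ' := Ordinal.toZFSet_injective e1
    rw [e2] at hz
    exact ⟨δ', this ▸ e3, hz, e4⟩

/-- A countable hull whose collapse preserves `B`. -/
structure HBc (B : ZFSet.{u} → Prop) (w : ZFSet.{u}) (Z : Set ZFSet.{u}) : Prop extends HB B w Z where
  bcol : ∀ z ∈ Z, (B (col Z z) ↔ B z)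

end Pool.Agent.H52.OB
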