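import Pool.Agent.H52.OB.Ctm
import Pool.Agent.H17.GP.Final

/-!
# Countable transitive models of the form `L_β[e]` that contain given countably many reals
-/

set_option autoImplicit false
set_option linter.unusedVariables false
set_option linter.unusedSectionVars false

universe u

namespace Pool.Agent.H52.OB

open Pool.Agent.H17.Omega Pool.Agent.H17.Omega.CTM Pool.Agent.H52.OM Pool.Agent.H17.GP

theorem lmod_of {κ : Cardinal.{u}} (hκ : κ.IsInaccessible) : LMod.{u} := by
  intro T hT
  obtain ⟨t, ht⟩ : ∃ t : ℕ → ℕ → ℕ, T ⊆ Set.range t := by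
    rcases T.eq_empty_or_nonempty with rfl | hne
    · exact ⟨fun _ _ => 0, Set.empty_subset _⟩
    · obtain ⟨t, ht⟩ := hT.exists_eq_range hne
      exact ⟨t, ht.le⟩
  let e : ℕ → ℕ := fun k => t k.unpair.1 k.unpair.2
  obtain ⟨β, hβ, hM⟩ := exists_ctm e hκ
  have he : e ∈ Rl (KL (fun z => z ∈ rz.{u} e) w0 β) := rz_mem hβ hM
  refine ⟨e, β, hM, hβ, he, fun γ => toZFSet_mem_KL_iff hβ, fun x hx => ?_⟩
  obtain ⟨n, rfl⟩ := ht hx
  have h1 := row_mem (hN := hM) he n
  have h2 : (fun k => e (Nat.pair n k)) = t n := by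
    funext k
    simp only [e, Nat.unpair_pair]
  rw [h2] at h1
  exact h1

/-- the assumption of `main_of_lmod` in the universe `1` -/
theorem lmod_one : LMod.{1} := lmod_of (κ := Cardinal.univ.{0, 1}) Cardinal.IsInaccessible.univ

end Pool.Agent.H52.OB
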